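import Mathlib
set_option autoImplicit false

namespace Pool.Agent.Results.MP_cbbe60_co.PartialMatchingEKR

open Finset

/-- vertices of `n K_2`: the edge `j` has the two ends `(j, false)` and `(j, true)` -/
abbrev X (n : ℕ) := Fin n × Bool

/-- the edges with both ends in `S` -/
def full {n : ℕ} (S : Finset (X n)) : Finset (Fin n) :=
  univ.filter fun j => (j, false) ∈ S ∧ (j, true) ∈ S

/-- the edges with exactly one end in `S` -/
def single {n : ℕ} (S : Finset (X n)) : Finset (Fin n) :=
  univ.filter fun j => ¬ ((j, false) ∈ S ↔ (j, true) ∈ S)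

/-- the family `H^{(p,s)}(n)` -/
def H (p s n : ℕ) : Finset (Finset (X n)) :=
  univ.filter fun S => (full S).card = p ∧ (single S).card = s

/-- the star of `x` -/
def star (p s n : ℕ) (x : X n) : Finset (Finset (X n)) := (H p s n).filter fun S => x ∈ S

/-- a family is intersecting if any two members (possibly equal) share a vertex -/
def Intersecting {n : ℕ} (F : Finset (Finset (X n))) : Prop := ∀ A ∈ F, ∀ B ∈ F, (A ∩ B).Nonempty

/-- `H^{(p,s)}(n)` is `(2p+s)`-EKR: an intersecting subfamily has size at most `max_x |H_x|` -/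
def IsEKR (p s n : ℕ) : Prop :=
  ∀ F ⊆ H p s n, Intersecting F → F.card ≤ (univ : Finset (X n)).sup fun x => (star p s n x).card

/-! ### the automorphisms -/

/-- automorphisms of `n K_2` -/
abbrev Gp (n : ℕ) := Equiv.Perm (Fin n) × (Fin n → Bool)

/-- the action on the vertices -/
def act {n : ℕ} (g : Gp n) : X n ≃ X n where
  toFun x := (g.1 x.1, xor x.2 (g.2 x.1))
  invFun y := (g.1.symm y.1, xor y.2 (g.2 (g.1.symm y.1)))
  left_inv := by rintro ⟨j, b⟩; simp
  right_inv := by rintro ⟨j, b⟩; simp

def cmp {n : ℕ} (h g : Gp n) : Gp n := (g.1.trans h.1, fun j => xor (g.2 j) (h.2 (g.1 j)))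

lemma act_cmp {n : ℕ} (h g : Gp n) (x : X n) : act (cmp h g) x = act h (act g x) := by
  obtain ⟨j, b⟩ := x
  simp [act, cmp]

lemma act_inj {n : ℕ} {g g' : Gp n} (h : ∀ x, act g x = act g' x) : g = g' := by
  obtain ⟨σ, w⟩ := g
  obtain ⟨σ', w'⟩ := g'
  have h1 : ∀ j, σ j = σ' j ∧ w j = w' j := by
    intro j
    have := h (j, false)
    simpa [act] using this
  rw [Prod.mk.injEq]
  exact ⟨Equiv.ext fun j => (h1 j).1, funext fun j => (h1 j).2⟩

/-- image of a set of vertices -/
def im {n : ℕ} (g : Gp n) (A : Finset (X n)) : Finset (X n) := A.map (act g).toEmbedding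

lemma mem_im {n : ℕ} (g : Gp n) (A : Finset (X n)) (x : X n) : act g x ∈ im g A ↔ x ∈ A := by
  unfold im
  rw [Finset.mem_map_equiv, Equiv.symm_apply_apply]

lemma mem_im' {n : ℕ} (g : Gp n) (A : Finset (X n)) (y : X n) : y ∈ im g A ↔ (act g).symm y ∈ A := by
  unfold im
  rw [Finset.mem_map_equiv]

lemma im_cmp {n : ℕ} (h g : Gp n) (A : Finset (X n)) : im (cmp h g) A = im h (im g A) := by
  ext y
  obtain ⟨x, rfl⟩ := (act (cmp h g)).surjective y
  rw [mem_im, act_cmp, mem_im, mem_im]

lemma full_im {n : ℕ} (g : Gp n) (A : Finset (X n)) : full (im g A) = (full A).map g.1.toEmbedding := by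
  ext k
  obtain ⟨j, rfl⟩ := g.1.surjective k
  rw [Finset.mem_map_equiv, Equiv.symm_apply_apply]
  simp only [full, Finset.mem_filter, Finset.mem_univ, true_and, mem_im']
  cases h : g.2 j <;> simp [act, h, and_comm]

lemma single_im {n : ℕ} (g : Gp n) (A : Finset (X n)) :
    single (im g A) = (single A).map g.1.toEmbedding := by
  ext k
  obtain ⟨j, rfl⟩ := g.1.surjective k
  rw [Finset.mem_map_equiv, Equiv.symm_apply_apply]
  simp only [single, Finset.mem_filter, Finset.mem_univ, true_and, mem_im']
  cases h : g.2 j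
  · simp [act, h]
  · simp only [act, h, Equiv.coe_fn_symm_mk, Equiv.symm_apply_apply]
    simp only [Bool.false_xor, Bool.true_xor, Bool.not_true]
    exact not_congr iff_comm

lemma im_mem {n p s : ℕ} (g : Gp n) {A : Finset (X n)} (hA : A ∈ H p s n) : im g A ∈ H p s n := by
  simp only [H, Finset.mem_filter, Finset.mem_univ, true_and] at hA ⊢
  rw [full_im, single_im, Finset.card_map, Finset.card_map]
  exact hA

/-- number of vertices over `j` -/
def tau {n : ℕ} (A : Finset (X n)) (j : Fin n) : ℕ :=
  (if (j, false) ∈ A then 1 else 0) + (if (j, true) ∈ A then 1 else 0)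

lemma card_tau {n p s : ℕ} {A : Finset (X n)} (hA : A ∈ H p s n) (c : ℕ) :
    (univ.filter fun j => tau A j = c).card =
      if c = 2 then p else if c = 1 then s else if c = 0 then n - (p + s) else 0 := by
  simp only [H, Finset.mem_filter, Finset.mem_univ, true_and] at hA
  have h2 : (univ.filter fun j => tau A j = 2) = full A := by
    ext j
    simp only [full, Finset.mem_filter, Finset.mem_univ, true_and, tau]
    split_ifs <;> simp_all
  have h1 : (univ.filter fun j => tau A j = 1) = single A := by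
    ext j
    simp only [single, Finset.mem_filter, Finset.mem_univ, true_and, tau]
    split_ifs <;> simp_all
  rcases Nat.lt_or_ge c 3 with hc | hc
  · interval_cases c
    · simp only [OfNat.zero_ne_ofNat, if_false, zero_ne_one, if_true]
      have hu : (univ.filter fun j => tau A j = 0) = univ \ (full A ∪ single A) := by
        ext j
        rw [Finset.mem_sdiff, Finset.mem_union, ← h1, ← h2]
        simp only [Finset.mem_filter, Finset.mem_univ, true_and, tau]
        split_ifs <;> simp_all
      have hd : Disjoint (full A) (single A) := by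
        rw [Finset.disjoint_left, ← h1, ← h2]
        intro j hj hj'
        rw [Finset.mem_filter] at hj hj'
        omega
      rw [hu, Finset.card_sdiff_of_subset (Finset.subset_univ _), Finset.card_univ, Fintype.card_fin,
        Finset.card_union_of_disjoint hd, hA.1, hA.2]
    · rw [h1, hA.2]; rfl
    · rw [h2, hA.1]; rfl
  · rw [if_neg (by omega), if_neg (by omega), if_neg (by omega), Finset.card_eq_zero,
      Finset.filter_eq_empty_iff]
    intro j _
    unfold tau
    split_ifs <;> omega

lemma transitive {n p s : ℕ} {A B : Finset (X n)} (hA : A ∈ H p s n) (hB : B ∈ H p s n) :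
    ∃ g : Gp n, im g A = B := by
  classical
  let e : ∀ c, {j // tau A j = c} ≃ {j // tau B j = c} := fun c => Fintype.equivOfCardEq (by
    rw [Fintype.card_subtype, Fintype.card_subtype, card_tau hA, card_tau hB])
  let σ : Fin n ≃ Fin n := Equiv.ofFiberEquiv e
  have hσ : ∀ j, tau B (σ j) = tau A j := Equiv.ofFiberEquiv_map e
  refine ⟨(σ, fun j => xor (decide ((j, true) ∈ A)) (decide ((σ j, true) ∈ B))), ?_⟩
  set g : Gp n := (σ, fun j => xor (decide ((j, true) ∈ A)) (decide ((σ j, true) ∈ B))) with hg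
  ext y
  obtain ⟨⟨j, b⟩, rfl⟩ := (act g).surjective y
  rw [mem_im]
  have h := hσ j
  unfold tau at h
  have hval : act g (j, b) = (σ j, xor b (xor (decide ((j, true) ∈ A)) (decide ((σ j, true) ∈ B)))) := rfl
  rw [hval]
  by_cases a0 : (j, false) ∈ A <;> by_cases a1 : (j, true) ∈ A <;>
    by_cases b0 : (σ j, false) ∈ B <;> by_cases b1 : (σ j, true) ∈ B <;>
    cases b <;> simp_all

/-- number of automorphisms taking `A` to `B` -/
def N {n : ℕ} (A B : Finset (X n)) : ℕ := (univ.filter fun g : Gp n => im g A = B).card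

lemma N_le {n p s : ℕ} {A B A' B' : Finset (X n)} (hA : A ∈ H p s n) (hB : B ∈ H p s n)
    (hA' : A' ∈ H p s n) (hB' : B' ∈ H p s n) : N A B ≤ N A' B' := by
  obtain ⟨h1, hh1⟩ := transitive hA' hA
  obtain ⟨h2, hh2⟩ := transitive hB hB'
  apply Finset.card_le_card_of_injOn (fun g => cmp h2 (cmp g h1))
  · intro g hg
    rw [Finset.mem_coe, Finset.mem_filter] at hg ⊢
    refine ⟨Finset.mem_univ _, ?_⟩
    rw [im_cmp, im_cmp, hh1, hg.2, hh2]
  · intro g _ g' _ h
    apply act_inj
    intro x
    obtain ⟨y, rfl⟩ := (act h1).surjective x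
    have := congrArg (fun k => act k y) h
    simp only [act_cmp] at this
    exact (act h2).injective this

lemma N_pos {n p s : ℕ} {A B : Finset (X n)} (hA : A ∈ H p s n) (hB : B ∈ H p s n) : 0 < N A B := by
  obtain ⟨g, hg⟩ := transitive hA hB
  exact Finset.card_pos.2 ⟨g, by rw [Finset.mem_filter]; exact ⟨Finset.mem_univ _, hg⟩⟩

/-! ### the cyclic arrangement -/

/-- position of a vertex on the cycle of length `2n` -/
def pos (s : ℕ) {n : ℕ} (x : X n) : ZMod (2 * n) := (2 * (x.1 : ℕ) : ℕ) + (if x.2 then (s : ZMod (2 * n)) else 0)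

/-- the vertices whose position lies in `{i, …, i + r - 1}` -/
def Sh (r s : ℕ) {n : ℕ} (i : ZMod (2 * n)) : Finset (X n) := univ.filter fun x => (pos s x - i).val < r

lemma mem_Sh {r s n : ℕ} {i : ZMod (2 * n)} {x : X n} : x ∈ Sh r s i ↔ (pos s x - i).val < r := by
  simp [Sh]

lemma count {n : ℕ} (hn : 1 ≤ n) (i : ZMod (2 * n)) (P : ℕ → Prop) [DecidablePred P] :
    (univ.filter fun j : Fin n => P (((2 * (j : ℕ) : ℕ) - i : ZMod (2 * n)).val)).card =
      ((range (2 * n)).filter fun m => m % 2 = i.val % 2 ∧ P m).card := by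
  have : NeZero (2 * n) := ⟨by omega⟩
  have key : ∀ j : Fin n, ∀ m : ℕ, m < 2 * n →
      ((((2 * (j : ℕ) : ℕ) - i : ZMod (2 * n)).val) = m ↔ (m + i.val) % (2 * n) = 2 * j) := by
    intro j m hm
    have hj := j.2
    have hvl : i.val < 2 * n := ZMod.val_lt i
    have hvi : ((i.val : ℕ) : ZMod (2 * n)) = i := ZMod.natCast_zmod_val i
    generalize i.val = v at hvl hvi
    subst hvi
    constructor
    · intro h
      have h1 : (((2 * (j : ℕ) : ℕ) - (v : ℕ) : ZMod (2 * n))) = (m : ℕ) := by
        rw [← h, ZMod.natCast_zmod_val]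
      have h2 : ((2 * (j : ℕ) : ℕ) : ZMod (2 * n)) = ((m + v : ℕ) : ZMod (2 * n)) := by
        push_cast at h1 ⊢
        rw [← h1]; ring
      rw [ZMod.natCast_eq_natCast_iff'] at h2
      rw [← h2, Nat.mod_eq_of_lt (by omega)]
    · intro h
      have h2 : ((2 * (j : ℕ) : ℕ) : ZMod (2 * n)) = ((m + v : ℕ) : ZMod (2 * n)) := by
        rw [ZMod.natCast_eq_natCast_iff', h, Nat.mod_eq_of_lt (by omega)]
      have h1 : (((2 * (j : ℕ) : ℕ) - (v : ℕ) : ZMod (2 * n))) = (m : ℕ) := by
        rw [h2]; push_cast; ring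
      rw [h1, ZMod.val_natCast, Nat.mod_eq_of_lt hm]
  refine Finset.card_bij (fun j _ => ((2 * (j : ℕ) : ℕ) - i : ZMod (2 * n)).val) ?_ ?_ ?_
  · intro j hj
    rw [Finset.mem_filter] at hj ⊢
    have hlt := ZMod.val_lt ((2 * (j : ℕ) : ℕ) - i : ZMod (2 * n))
    refine ⟨Finset.mem_range.2 hlt, ?_, hj.2⟩
    have h1 := (key j _ hlt).1 rfl
    have h2 := Nat.div_add_mod (((2 * (j : ℕ) : ℕ) - i : ZMod (2 * n)).val + i.val) (2 * n)
    rw [h1] at h2
    have h3 : (2 * n) * ((((2 * (j : ℕ) : ℕ) - i : ZMod (2 * n)).val + i.val) / (2 * n)) =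
      2 * (n * ((((2 * (j : ℕ) : ℕ) - i : ZMod (2 * n)).val + i.val) / (2 * n))) := by ring
    rw [h3] at h2
    omega
  · intro j hj j' hj' h
    have hlt := ZMod.val_lt ((2 * (j : ℕ) : ℕ) - i : ZMod (2 * n))
    have h1 := (key j _ hlt).1 rfl
    have h2 := (key j' _ hlt).1 h.symm
    apply Fin.ext
    omega
  · intro m hm
    rw [Finset.mem_filter, Finset.mem_range] at hm
    have hlt : (m + i.val) % (2 * n) < 2 * n := Nat.mod_lt _ (by omega)
    have h2 := Nat.div_add_mod (m + i.val) (2 * n)
    have h3 : (2 * n) * ((m + i.val) / (2 * n)) = 2 * (n * ((m + i.val) / (2 * n))) := by ring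
    rw [h3] at h2
    set a := (m + i.val) % (2 * n) with ha
    have ha2 : a = 2 * (a / 2) := by omega
    refine ⟨⟨a / 2, by omega⟩, ?_, ?_⟩
    · rw [Finset.mem_filter]
      refine ⟨Finset.mem_univ _, ?_⟩
      have := (key ⟨a / 2, by omega⟩ m hm.1).2 (by simp only; omega)
      rw [this]; exact hm.2.2
    · exact (key ⟨a / 2, by omega⟩ m hm.1).2 (by simp only; omega)

lemma pos_true {n s : ℕ} (hn : 1 ≤ n) (j : Fin n) (i : ZMod (2 * n)) :
    (pos s (j, true) - i).val = (((2 * (j : ℕ) : ℕ) - i : ZMod (2 * n)).val + s) % (2 * n) := by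
  have : NeZero (2 * n) := ⟨by omega⟩
  have : pos s (j, true) - i = ((2 * (j : ℕ) : ℕ) - i : ZMod (2 * n)) + (s : ℕ) := by
    simp only [pos, if_true]
    ring
  rw [this, ZMod.val_add, ZMod.val_natCast, Nat.add_mod_mod]

lemma pos_false {n s : ℕ} (j : Fin n) (i : ZMod (2 * n)) :
    (pos s (j, false) - i).val = (((2 * (j : ℕ) : ℕ) - i : ZMod (2 * n)).val) := by
  have : pos s (j, false) - i = ((2 * (j : ℕ) : ℕ) - i : ZMod (2 * n)) := by
    simp [pos]
  rw [this]

lemma Sh_mem {p s n : ℕ} (hn : 1 ≤ n) (h : 2 * p + s ≤ n) (i : ZMod (2 * n)) :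
    Sh (2 * p + s) s i ∈ H p s n := by
  have : NeZero (2 * n) := ⟨by omega⟩
  have hmod : ∀ m, m < 2 * n → (m + s) % (2 * n) = if m + s < 2 * n then m + s else m + s - 2 * n := by
    intro m hm
    split_ifs with hc
    · exact Nat.mod_eq_of_lt hc
    · rw [Nat.mod_eq_sub_mod (by omega), Nat.mod_eq_of_lt (by omega)]
  simp only [H, Finset.mem_filter, Finset.mem_univ, true_and]
  constructor
  · have h1 : full (Sh (2 * p + s) s i) = univ.filter fun j : Fin n =>
        ((((2 * (j : ℕ) : ℕ) - i : ZMod (2 * n)).val) < 2 * p + s ∧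
          ((((2 * (j : ℕ) : ℕ) - i : ZMod (2 * n)).val) + s) % (2 * n) < 2 * p + s) := by
      ext j
      simp only [full, Finset.mem_filter, Finset.mem_univ, true_and, mem_Sh, pos_true hn, pos_false]
    rw [h1, count hn i (fun m => m < 2 * p + s ∧ (m + s) % (2 * n) < 2 * p + s)]
    refine Finset.card_nbij' (t := range p) (fun m => m / 2) (fun k => 2 * k + i.val % 2) ?_ ?_ ?_ ?_ |>.trans
      (Finset.card_range p)
    · intro m hm
      rw [Finset.mem_coe, Finset.mem_filter, Finset.mem_range] at hm
      rw [Finset.mem_coe, Finset.mem_range]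
      obtain ⟨a, b, c, d⟩ := hm
      rw [hmod m a] at d
      beta_reduce
      split_ifs at d <;> omega
    · intro k hk
      rw [Finset.mem_coe, Finset.mem_range] at hk
      rw [Finset.mem_coe, Finset.mem_filter, Finset.mem_range]
      beta_reduce
      have : 2 * k + i.val % 2 < 2 * n := by omega
      refine ⟨this, by omega, by omega, ?_⟩
      rw [hmod _ this]
      split_ifs <;> omega
    · intro m hm
      rw [Finset.mem_coe, Finset.mem_filter, Finset.mem_range] at hm
      beta_reduce
      omega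
    · intro k hk
      beta_reduce
      omega
  · have h1 : single (Sh (2 * p + s) s i) = univ.filter fun j : Fin n =>
        ¬ ((((2 * (j : ℕ) : ℕ) - i : ZMod (2 * n)).val) < 2 * p + s ↔
          ((((2 * (j : ℕ) : ℕ) - i : ZMod (2 * n)).val) + s) % (2 * n) < 2 * p + s) := by
      ext j
      simp only [single, Finset.mem_filter, Finset.mem_univ, true_and, mem_Sh, pos_true hn, pos_false]
    rw [h1, count hn i (fun m => ¬ (m < 2 * p + s ↔ (m + s) % (2 * n) < 2 * p + s))]
    refine Finset.card_nbij' (t := range s)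
      (fun m => if m < 2 * p + s then m - 2 * p else 2 * n - 1 - m)
      (fun k => if k % 2 = i.val % 2 then k + 2 * p else 2 * n - 1 - k) ?_ ?_ ?_ ?_ |>.trans
      (Finset.card_range s)
    · intro m hm
      rw [Finset.mem_coe, Finset.mem_filter, Finset.mem_range] at hm
      rw [Finset.mem_coe, Finset.mem_range]
      obtain ⟨a, b, d⟩ := hm
      rw [hmod m a] at d
      beta_reduce
      split_ifs at d ⊢ <;> omega
    · intro k hk
      rw [Finset.mem_coe, Finset.mem_range] at hk
      rw [Finset.mem_coe, Finset.mem_filter, Finset.mem_range]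
      beta_reduce
      split_ifs with hc
      · have : k + 2 * p < 2 * n := by omega
        refine ⟨this, by omega, ?_⟩
        rw [hmod _ this]
        split_ifs <;> omega
      · have : 2 * n - 1 - k < 2 * n := by omega
        refine ⟨this, by omega, ?_⟩
        rw [hmod _ this]
        split_ifs <;> omega
    · intro m hm
      rw [Finset.mem_coe, Finset.mem_filter, Finset.mem_range] at hm
      obtain ⟨a, b, d⟩ := hm
      rw [hmod m a] at d
      beta_reduce
      split_ifs at d ⊢ <;> omega
    · intro k hk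
      rw [Finset.mem_coe, Finset.mem_range] at hk
      beta_reduce
      split_ifs <;> omega

/-- every vertex lies in exactly `r` of the shapes -/
lemma degree {n r s : ℕ} [NeZero (2 * n)] (hn : 1 ≤ n) (hr : r ≤ n) (x : X n) :
    (univ.filter fun i : ZMod (2 * n) => x ∈ Sh r s i).card = r := by
  refine Finset.card_nbij' (t := range r) (fun i => (pos s x - i).val)
      (fun k => pos s x - (k : ℕ)) ?_ ?_ ?_ ?_ |>.trans (Finset.card_range r)
  · intro i hi
    rw [Finset.mem_coe, Finset.mem_filter, mem_Sh] at hi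
    rw [Finset.mem_coe, Finset.mem_range]
    exact hi.2
  · intro k hk
    rw [Finset.mem_coe, Finset.mem_range] at hk
    rw [Finset.mem_coe, Finset.mem_filter, mem_Sh]
    refine ⟨Finset.mem_univ _, ?_⟩
    rw [sub_sub_cancel, ZMod.val_natCast, Nat.mod_eq_of_lt (by omega)]
    exact hk
  · intro i _
    simp only [ZMod.natCast_zmod_val, sub_sub_cancel]
  · intro k hk
    rw [Finset.mem_coe, Finset.mem_range] at hk
    simp only [sub_sub_cancel]
    rw [ZMod.val_natCast, Nat.mod_eq_of_lt (by omega)]

/-- Katona: pairwise intersecting arcs -/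
lemma katona {M r : ℕ} (hM : 1 ≤ M) (hr : 2 * r ≤ M) (J : Finset (ZMod M))
    (hJ : ∀ i ∈ J, ∀ j ∈ J, ∃ a b : ℕ, a < r ∧ b < r ∧ i + (a : ZMod M) = j + (b : ZMod M)) :
    J.card ≤ r := by
  have : NeZero M := ⟨by omega⟩
  rcases J.eq_empty_or_nonempty with rfl | ⟨i0, hi0⟩
  · simp
  have h1 : ∀ i ∈ J, (i - i0).val < r ∨ M - r < (i - i0).val := by
    intro i hi
    obtain ⟨a, b, ha, hb, hab⟩ := hJ i hi i0 hi0
    have h2 : (((i - i0).val + a : ℕ) : ZMod M) = ((b : ℕ) : ZMod M) := by
      push_cast
      rw [ZMod.natCast_zmod_val]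
      linear_combination hab
    rw [ZMod.natCast_eq_natCast_iff'] at h2
    have h3 : (i - i0).val < M := ZMod.val_lt _
    rw [Nat.mod_eq_of_lt (show b < M by omega)] at h2
    rcases Nat.lt_or_ge ((i - i0).val + a) M with h4 | h4
    · rw [Nat.mod_eq_of_lt h4] at h2
      left; omega
    · rw [Nat.mod_eq_sub_mod h4, Nat.mod_eq_of_lt (by omega)] at h2
      right; omega
  have h2 : J.card ≤ (range r).card := by
    apply Finset.card_le_card_of_injOn (fun i => if (i - i0).val < r then (i - i0).val else (i - i0).val + r - M)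
    · intro i hi
      have h3 := h1 i hi
      have h4 : (i - i0).val < M := ZMod.val_lt _
      rw [Finset.mem_coe, Finset.mem_range]
      beta_reduce
      split_ifs <;> omega
    · intro i hi j hj hij
      have hi3 := h1 i hi
      have hi4 : (i - i0).val < M := ZMod.val_lt _
      have hj3 := h1 j hj
      have hj4 : (j - i0).val < M := ZMod.val_lt _
      -- the bad case
      have bad : ∀ x ∈ J, ∀ y ∈ J, (x - i0).val < r → M - r < (y - i0).val →
          (x - i0).val = (y - i0).val + r - M → False := by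
        intro x hx y hy h5 h6 h7
        obtain ⟨a, b, ha, hb, hab⟩ := hJ x hx y hy
        have h8 : (((x - i0).val + a : ℕ) : ZMod M) = (((y - i0).val + b : ℕ) : ZMod M) := by
          push_cast
          rw [ZMod.natCast_zmod_val, ZMod.natCast_zmod_val]
          linear_combination hab
        rw [ZMod.natCast_eq_natCast_iff'] at h8
        have h9 : (y - i0).val < M := ZMod.val_lt _
        rw [Nat.mod_eq_of_lt (show (x - i0).val + a < M by omega)] at h8
        rcases Nat.lt_or_ge ((y - i0).val + b) M with h10 | h10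
        · rw [Nat.mod_eq_of_lt h10] at h8
          omega
        · rw [Nat.mod_eq_sub_mod h10, Nat.mod_eq_of_lt (by omega)] at h8
          omega
      have hval : (i - i0).val = (j - i0).val := by
        simp only at hij
        split_ifs at hij with c1 c2 c2
        · exact hij
        · exact (bad i hi j hj c1 (by omega) hij).elim
        · exact (bad j hj i hi c2 (by omega) hij.symm).elim
        · omega
      have := ZMod.val_injective M hval
      exact sub_left_injective this
  rwa [Finset.card_range] at h2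

theorem main {p s n : ℕ} (hn : 1 ≤ n) (h : 2 * p + s ≤ n) (F : Finset (Finset (X n)))
    (hF : F ⊆ H p s n) (hI : Intersecting F) (x : X n) : F.card ≤ (star p s n x).card := by
  classical
  have : NeZero (2 * n) := ⟨by omega⟩
  set r := 2 * p + s with hr
  have hA : ∀ i : ZMod (2 * n), Sh r s i ∈ H p s n := Sh_mem hn h
  set A0 := Sh r s (0 : ZMod (2 * n)) with hA0
  set c := N A0 A0 with hc
  have hc0 : 0 < c := N_pos (hA 0) (hA 0)
  have hN : ∀ A ∈ H p s n, ∀ B ∈ H p s n, N A B = c := fun A hA' B hB' =>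
    le_antisymm (N_le hA' hB' (hA 0) (hA 0)) (N_le (hA 0) (hA 0) hA' hB')
  -- counting for a subfamily
  have count1 : ∀ K : Finset (Finset (X n)), K ⊆ H p s n →
      ∑ g : Gp n, (univ.filter fun i : ZMod (2 * n) => im g (Sh r s i) ∈ K).card =
        2 * n * (K.card * c) := by
    intro K hK
    have e1 : ∀ g : Gp n, (univ.filter fun i : ZMod (2 * n) => im g (Sh r s i) ∈ K).card =
        ∑ i : ZMod (2 * n), ∑ B ∈ K, if im g (Sh r s i) = B then 1 else 0 := by
      intro g
      rw [Finset.card_filter]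
      apply Finset.sum_congr rfl
      intro i _
      rw [Finset.sum_ite_eq]
    simp only [e1]
    rw [Finset.sum_comm]
    have e2 : ∀ i : ZMod (2 * n), ∑ g : Gp n, ∑ B ∈ K, (if im g (Sh r s i) = B then 1 else 0) =
        K.card * c := by
      intro i
      rw [Finset.sum_comm]
      have e3 : ∀ B ∈ K, ∑ g : Gp n, (if im g (Sh r s i) = B then 1 else 0) = c := by
        intro B hB
        rw [← hN (Sh r s i) (hA i) B (hK hB), N, Finset.card_filter]
      rw [Finset.sum_congr rfl e3, Finset.sum_const, smul_eq_mul]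
    rw [Finset.sum_congr rfl (fun i _ => e2 i), Finset.sum_const, Finset.card_univ, ZMod.card,
      smul_eq_mul]
  have hle : ∑ g : Gp n, (univ.filter fun i : ZMod (2 * n) => im g (Sh r s i) ∈ F).card ≤
      ∑ g : Gp n, (univ.filter fun i : ZMod (2 * n) => im g (Sh r s i) ∈ star p s n x).card := by
    apply Finset.sum_le_sum
    intro g _
    have h1 : (univ.filter fun i : ZMod (2 * n) => im g (Sh r s i) ∈ F).card ≤ r := by
      apply katona (by omega) (by omega)
      intro i hi j hj
      rw [Finset.mem_filter] at hi hj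
      obtain ⟨y, hy⟩ := hI _ hi.2 _ hj.2
      rw [Finset.mem_inter, mem_im', mem_im', mem_Sh, mem_Sh] at hy
      refine ⟨_, _, hy.1, hy.2, ?_⟩
      rw [ZMod.natCast_zmod_val, ZMod.natCast_zmod_val]
      ring
    have h2 : (univ.filter fun i : ZMod (2 * n) => im g (Sh r s i) ∈ star p s n x).card = r := by
      refine Eq.trans ?_ (degree (s := s) hn h ((act g).symm x))
      congr 1
      ext i
      simp only [Finset.mem_filter, Finset.mem_univ, true_and, star, mem_im']
      exact ⟨fun h => h.2, fun h => ⟨im_mem g (hA i), h⟩⟩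
    rw [h2]
    exact h1
  rw [count1 F hF, count1 (star p s n x) (Finset.filter_subset _ _)] at hle
  have h3 : F.card * c ≤ (star p s n x).card * c := Nat.le_of_mul_le_mul_left hle (by omega)
  exact Nat.le_of_mul_le_mul_right h3 hc0

/-- Every `H^{(p,s)}(n)` with `n ≥ 2p + s` is `(2p+s)`-EKR; in fact an intersecting subfamily is at
most as large as the star of any given vertex. -/
theorem result : (∀ p s n : ℕ, 2 * p + s ≤ n → IsEKR p s n) ∧
    ∀ p s n : ℕ, 2 * p + s ≤ n → ∀ F ⊆ H p s n, Intersecting F → ∀ x : X n,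
      F.card ≤ (star p s n x).card := by
  have h2 : ∀ p s n : ℕ, 2 * p + s ≤ n → ∀ F ⊆ H p s n, Intersecting F → ∀ x : X n,
      F.card ≤ (star p s n x).card := by
    intro p s n h F hF hI x
    exact main (by have := x.1.2; omega) h F hF hI x
  refine ⟨?_, h2⟩
  intro p s n h F hF hI
  rcases Nat.eq_zero_or_pos n with rfl | hn
  · have : F = ∅ := by
      rw [Finset.eq_empty_iff_forall_notMem]
      intro A hA
      obtain ⟨y, _⟩ := hI A hA A hA
      exact y.1.elim0
    rw [this]
    simp
  · exact (h2 p s n h F hF hI (⟨0, hn⟩, false)).trans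
      (Finset.le_sup (f := fun x => (star p s n x).card) (Finset.mem_univ _))

end Pool.Agent.Results.MP_cbbe60_co.PartialMatchingEKR
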